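import Mathlib

set_option autoImplicit false

namespace Pool.Agent.Results.MP_a0c03c_an.QuotientS

open Filter Topology

/-- Property (S): every element of the span of the products is a finite sum of products with
the sum of the products of the norms bounded by a constant times its norm. -/
def HasS (A : Type) [NonUnitalNormedRing A] [NormedSpace ℂ A] : Prop :=
  ∃ C : ℝ, 0 < C ∧ ∀ x ∈ Submodule.span ℂ {z : A | ∃ a b : A, z = a * b},
    ∃ l : List (A × A), x = (l.map fun p => p.1 * p.2).sum ∧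
      (l.map fun p => ‖p.1‖ * ‖p.2‖).sum ≤ C * ‖x‖

abbrev L1 : Type := lp (fun _ : ℕ => ℂ) 1

noncomputable def ξ (i : ℕ) : ℝ := 1 / ((i : ℝ) + 2)

theorem ξ_pos (i : ℕ) : 0 < ξ i := by unfold ξ; positivity

theorem ξ_le (i : ℕ) : ξ i ≤ 1 := by
  unfold ξ
  rw [div_le_one (by positivity)]
  linarith [Nat.cast_nonneg (α := ℝ) i]

theorem ξ_not_summable : ¬ Summable ξ := by
  intro h
  apply Real.not_summable_one_div_natCast
  rw [← summable_nat_add_iff 2]
  refine h.congr fun i => ?_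
  simp [ξ]

theorem ξ_sq_sum (n : ℕ) : ∑ i ∈ Finset.range n, ξ i ^ 2 ≤ 1 - 1 / ((n : ℝ) + 1) := by
  induction n with
  | zero => simp
  | succ n ih =>
    rw [Finset.sum_range_succ]
    have h : ξ n ^ 2 ≤ 1 / ((n : ℝ) + 1) - 1 / ((n : ℝ) + 1 + 1) := by
      unfold ξ
      rw [div_sub_div _ _ (by positivity) (by positivity), div_pow,
        div_le_div_iff₀ (by positivity) (by positivity)]
      nlinarith [Nat.cast_nonneg (α := ℝ) n]
    push_cast
    linarith

theorem ξ_sq_le (n : ℕ) : ∑ i ∈ Finset.range n, ξ i ^ 2 ≤ 1 := by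
  have := ξ_sq_sum n
  have h : (0 : ℝ) ≤ 1 / ((n : ℝ) + 1) := by positivity
  linarith

theorem ξ_sq_summable : Summable fun i => ξ i ^ 2 :=
  summable_of_sum_range_le (fun _ => sq_nonneg _) ξ_sq_le

theorem L1_hasSum (x : L1) : HasSum (fun i => ‖x i‖) ‖x‖ := by
  simpa using lp.hasSum_norm (p := 1) (by simp) x

theorem L1_le (x : L1) (i : ℕ) : ‖x i‖ ≤ ‖x‖ := lp.norm_apply_le_norm (by simp) x i

noncomputable def ev (a : L1 × ℂ) (i : ℕ) : ℂ := a.1 i + a.2 * ξ i

theorem ev_bound (a b : L1 × ℂ) (i : ℕ) : ‖ev a i * ev b i / 4‖ ≤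
    (2 * ‖a‖ * ‖b.1 i‖ + ‖b‖ * ‖a.1 i‖ + ‖a‖ * ‖b‖ * ξ i ^ 2) / 4 := by
  have h1 : ‖a.1 i‖ ≤ ‖a‖ := (L1_le _ i).trans (norm_fst_le a)
  have h2 : ‖a.2‖ ≤ ‖a‖ := norm_snd_le a
  have h3 : ‖b.2‖ ≤ ‖b‖ := norm_snd_le b
  have e : ∀ c : L1 × ℂ, ‖ev c i‖ ≤ ‖c.1 i‖ + ‖c‖ * ξ i := fun c => by
    refine (norm_add_le _ _).trans (add_le_add le_rfl ?_)
    rw [norm_mul, Complex.norm_real, Real.norm_of_nonneg (ξ_pos i).le]
    exact mul_le_mul_of_nonneg_right (norm_snd_le c) (ξ_pos i).le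
  rw [norm_div, norm_mul]
  have h4 := mul_le_mul (e a) (e b) (norm_nonneg _)
    (add_nonneg (norm_nonneg _) (mul_nonneg (norm_nonneg _) (ξ_pos i).le))
  have h5 := mul_le_mul_of_nonneg_right h1 (norm_nonneg (b.1 i))
  have h6 := mul_le_of_le_one_right (mul_nonneg (norm_nonneg a) (norm_nonneg (b.1 i))) (ξ_le i)
  have h7 := mul_le_of_le_one_right (mul_nonneg (norm_nonneg b) (norm_nonneg (a.1 i))) (ξ_le i)
  have h8 : ‖(4 : ℂ)‖ = 4 := by simp
  rw [h8]
  nlinarith

theorem bound_hasSum (a b : L1 × ℂ) : HasSum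
    (fun i => (2 * ‖a‖ * ‖b.1 i‖ + ‖b‖ * ‖a.1 i‖ + ‖a‖ * ‖b‖ * ξ i ^ 2) / 4)
    ((2 * ‖a‖ * ‖b.1‖ + ‖b‖ * ‖a.1‖ + ‖a‖ * ‖b‖ * ∑' i, ξ i ^ 2) / 4) :=
  ((((L1_hasSum b.1).mul_left _).add ((L1_hasSum a.1).mul_left _)).add
    (ξ_sq_summable.hasSum.mul_left _)).div_const 4

noncomputable def P (a b : L1 × ℂ) : L1 :=
  ⟨fun i => ev a i * ev b i / 4, memℓp_gen (by
    simpa using Summable.of_nonneg_of_le (fun i => norm_nonneg _) (ev_bound a b)
      (bound_hasSum a b).summable)⟩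

@[simp] theorem P_apply (a b : L1 × ℂ) (i : ℕ) : P a b i = ev a i * ev b i / 4 := rfl

theorem P_norm (a b : L1 × ℂ) : ‖P a b‖ ≤ ‖a‖ * ‖b‖ := by
  have h1 := hasSum_le (ev_bound a b) (L1_hasSum (P a b)) (bound_hasSum a b)
  have h2 : ∑' i, ξ i ^ 2 ≤ 1 := Real.tsum_le_of_sum_range_le (fun _ => sq_nonneg _) ξ_sq_le
  have h3 := mul_le_mul_of_nonneg_left (norm_fst_le b) (norm_nonneg a)
  have h4 := mul_le_mul_of_nonneg_left (norm_fst_le a) (norm_nonneg b)
  have h5 := mul_le_of_le_one_right (mul_nonneg (norm_nonneg a) (norm_nonneg b)) h2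
  nlinarith

@[simp] theorem ev_add (a b : L1 × ℂ) (i : ℕ) : ev (a + b) i = ev a i + ev b i := by
  simp [ev]; ring
@[simp] theorem ev_smul (c : ℂ) (a : L1 × ℂ) (i : ℕ) : ev (c • a) i = c * ev a i := by
  simp [ev]; ring
@[simp] theorem ev_zero (i : ℕ) : ev 0 i = 0 := by simp [ev]
@[simp] theorem ev_mk (x : L1) (i : ℕ) : ev (x, 0) i = x i := by simp [ev]

theorem P_comm (a b : L1 × ℂ) : P a b = P b a := by ext i; simp [mul_comm]
theorem P_add (a b c : L1 × ℂ) : P a (b + c) = P a b + P a c := by ext i; simp; ring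
theorem P_smul (c : ℂ) (a b : L1 × ℂ) : P (c • a) b = c • P a b := by ext i; simp; ring
theorem P_zero (a : L1 × ℂ) : P 0 a = 0 := by ext i; simp
theorem P_assoc (a b c : L1 × ℂ) : P (P a b, 0) c = P a (P b c, 0) := by ext i; simp; ring

/-- The semisimple quotient. -/
def B : Type := L1 × ℂ

noncomputable instance : NormedAddCommGroup B := inferInstanceAs (NormedAddCommGroup (L1 × ℂ))
noncomputable instance : NormedSpace ℂ B := inferInstanceAs (NormedSpace ℂ (L1 × ℂ))
instance : CompleteSpace B := inferInstanceAs (CompleteSpace (L1 × ℂ))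

noncomputable instance : NonUnitalNormedRing B :=
  { (inferInstance : NormedAddCommGroup B) with
    mul := fun a b => (P a b, 0)
    left_distrib := fun a b c => Prod.ext (P_add a b c) (add_zero _).symm
    right_distrib := fun a b c => Prod.ext
      ((P_comm _ _).trans ((P_add c a b).trans (by rw [P_comm c, P_comm c]; rfl)))
      (add_zero _).symm
    zero_mul := fun a => Prod.ext (P_zero a) rfl
    mul_zero := fun a => Prod.ext ((P_comm _ _).trans (P_zero a)) rfl
    mul_assoc := fun a b c => Prod.ext (P_assoc a b c) rfl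
    norm_mul_le := fun a b => max_le (P_norm a b)
      ((norm_zero (E := ℂ)).trans_le (mul_nonneg (norm_nonneg a) (norm_nonneg b))) }

instance : IsScalarTower ℂ B B := ⟨fun c a b => Prod.ext (P_smul c a b) (smul_zero c).symm⟩
instance : SMulCommClass ℂ B B := ⟨fun c a b => Prod.ext
  ((P_comm _ _).trans ((P_smul c b a).trans (by rw [P_comm]; rfl))).symm (smul_zero c)⟩

/-- The algebra with one-dimensional radical. -/
def A : Type := (L1 × ℂ) × ℂ

noncomputable instance : NormedAddCommGroup A :=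
  inferInstanceAs (NormedAddCommGroup ((L1 × ℂ) × ℂ))
noncomputable instance : NormedSpace ℂ A := inferInstanceAs (NormedSpace ℂ ((L1 × ℂ) × ℂ))
instance : CompleteSpace A := inferInstanceAs (CompleteSpace ((L1 × ℂ) × ℂ))

noncomputable instance : NonUnitalNormedCommRing A :=
  { (inferInstance : NormedAddCommGroup A) with
    mul := fun a b => ((P a.1 b.1, 0), a.1.2 * b.1.2)
    left_distrib := fun a b c =>
      Prod.ext (Prod.ext (P_add a.1 b.1 c.1) (add_zero _).symm) (mul_add _ _ _)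
    right_distrib := fun a b c => Prod.ext (Prod.ext
      ((P_comm _ _).trans ((P_add c.1 a.1 b.1).trans (by rw [P_comm c.1, P_comm c.1]; rfl)))
      (add_zero _).symm) (add_mul _ _ _)
    zero_mul := fun a => Prod.ext (Prod.ext (P_zero a.1) rfl) (zero_mul _)
    mul_zero := fun a => Prod.ext (Prod.ext ((P_comm _ _).trans (P_zero a.1)) rfl) (mul_zero _)
    mul_assoc := fun a b c => Prod.ext (Prod.ext (P_assoc a.1 b.1 c.1) rfl)
      ((zero_mul _).trans (mul_zero _).symm)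
    mul_comm := fun a b => Prod.ext (Prod.ext (P_comm _ _) rfl) (mul_comm _ _)
    norm_mul_le := fun a b => max_le (max_le
      ((P_norm a.1 b.1).trans (mul_le_mul (norm_fst_le a) (norm_fst_le b) (norm_nonneg _)
        (norm_nonneg a)))
      ((norm_zero (E := ℂ)).trans_le (mul_nonneg (norm_nonneg a) (norm_nonneg b))))
      ((norm_mul_le _ _).trans (mul_le_mul ((norm_snd_le a.1).trans (norm_fst_le a))
        ((norm_snd_le b.1).trans (norm_fst_le b)) (norm_nonneg _) (norm_nonneg a))) }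

theorem A_mul (a b : A) : a * b = ((P a.1 b.1, 0), a.1.2 * b.1.2) := rfl

instance : IsScalarTower ℂ A A := ⟨fun c a b =>
  Prod.ext (Prod.ext (P_smul c a.1 b.1) (smul_zero c).symm) (mul_assoc _ _ _)⟩
instance : SMulCommClass ℂ A A := ⟨fun c a b => by
  show c • (a * b) = a * (c • b)
  rw [mul_comm a, mul_comm a, smul_mul_assoc]⟩

def Rep (x : A) (c : ℝ) : Prop := ∃ l : List (A × A), x = (l.map fun p => p.1 * p.2).sum ∧
  (l.map fun p => ‖p.1‖ * ‖p.2‖).sum ≤ c

theorem Rep.zero : Rep 0 0 := ⟨[], rfl, le_rfl⟩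

theorem Rep.mul (a b : A) : Rep (a * b) (‖a‖ * ‖b‖) := ⟨[(a, b)], by simp, by simp⟩

theorem Rep.mono {x : A} {c d : ℝ} (h : Rep x c) (hcd : c ≤ d) : Rep x d :=
  let ⟨l, h1, h2⟩ := h; ⟨l, h1, h2.trans hcd⟩

theorem Rep.add {x y : A} {c d : ℝ} (h : Rep x c) (h' : Rep y d) : Rep (x + y) (c + d) := by
  obtain ⟨l, h1, h2⟩ := h
  obtain ⟨m, h3, h4⟩ := h'
  exact ⟨l ++ m, by simp [h1, h3], by simp; linarith⟩

theorem Rep.smul {x : A} {c : ℝ} (t : ℂ) (h : Rep x c) : Rep (t • x) (‖t‖ * c) := by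
  obtain ⟨l, rfl, h2⟩ := h
  refine Rep.mono ?_ (mul_le_mul_of_nonneg_left h2 (norm_nonneg t))
  clear h2
  induction l with
  | nil => simpa using Rep.zero
  | cons p l ih =>
    simp only [List.map_cons, List.sum_cons, smul_add, mul_add]
    refine Rep.add ?_ ih
    have := Rep.mul (t • p.1) p.2
    rwa [smul_mul_assoc, norm_smul, mul_assoc] at this

noncomputable def E (v : L1) : A := ((v, 0), 0)

theorem E_norm (v : L1) : ‖E v‖ = ‖v‖ := by
  show max (max ‖v‖ ‖(0 : ℂ)‖) ‖(0 : ℂ)‖ = _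
  simp

noncomputable def Ξ : A := ((0, 1), 0)

theorem Ξ_norm : ‖Ξ‖ = 1 := by
  show max (max ‖(0 : L1)‖ ‖(1 : ℂ)‖) ‖(0 : ℂ)‖ = _
  simp

noncomputable def tr (s : Finset ℕ) (v : L1) : L1 := ∑ i ∈ s, lp.single 1 i (v i)

theorem tr_apply (s : Finset ℕ) (v : L1) (i : ℕ) : tr s v i = if i ∈ s then v i else 0 := by
  rw [tr, lp.coeFn_sum, Finset.sum_apply]
  simp [lp.single_apply, Pi.single_apply]

theorem tr_tendsto (v : L1) : Tendsto (fun s => ‖v - tr s v‖) atTop (𝓝 0) := by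
  have h : Tendsto (fun s => tr s v) atTop (𝓝 v) := lp.hasSum_single (by simp) v
  simpa using (h.const_sub v).norm

theorem single_eq (i : ℕ) (c : ℂ) :
    lp.single 1 i c = P (lp.single 1 i (4 * c), 0) (lp.single 1 i 1, 0) := by
  ext j
  simp only [P_apply, ev_mk, lp.single_apply, Pi.single_apply]
  split_ifs <;> simp

theorem Rep_tr (s : Finset ℕ) (v : L1) : Rep (E (tr s v)) (4 * ‖v‖) := by
  have h : Rep (E (tr s v)) (4 * ∑ i ∈ s, ‖v i‖) := by
    induction s using Finset.induction_on with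
    | empty =>
      rw [tr, Finset.sum_empty, Finset.sum_empty, mul_zero]
      exact Rep.zero
    | insert i s hi ih =>
      have e : E (tr (insert i s) v) =
          E (lp.single 1 i (4 * v i)) * E (lp.single 1 i 1) + E (tr s v) := by
        refine Prod.ext (Prod.ext ?_ (add_zero _).symm) ?_
        · show tr (insert i s) v = P _ _ + tr s v
          rw [tr, Finset.sum_insert hi, single_eq]; rfl
        · show (0 : ℂ) = 0 * 0 + 0
          simp
      rw [e, Finset.sum_insert hi, mul_add]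
      refine Rep.add ((Rep.mul _ _).mono ?_) ih
      rw [E_norm, E_norm, lp.norm_single (by simp), lp.norm_single (by simp)]
      simp
  exact h.mono (mul_le_mul_of_nonneg_left
    (sum_le_hasSum s (fun _ _ => norm_nonneg _) (L1_hasSum v)) (by norm_num))

def Q (u : A) : Prop := ∀ ε : ℝ, 0 < ε → ∀ᶠ s in atTop, Rep (u - E (tr s u.1.1)) ε

theorem Q.add {u v : A} (hu : Q u) (hv : Q v) : Q (u + v) := by
  intro ε hε
  filter_upwards [hu _ (half_pos hε), hv _ (half_pos hε)] with s h1 h2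
  have e : E (tr s (u + v).1.1) = E (tr s u.1.1) + E (tr s v.1.1) := by
    refine Prod.ext (Prod.ext ?_ (add_zero _).symm) (add_zero _).symm
    show tr s (u.1.1 + v.1.1) = tr s u.1.1 + tr s v.1.1
    ext i
    simp only [tr_apply, lp.coeFn_add, Pi.add_apply]
    split_ifs <;> simp
  have := h1.add h2
  rw [add_halves] at this
  rwa [e, add_sub_add_comm]

theorem Q.smul {u : A} (t : ℂ) (hu : Q u) : Q (t • u) := by
  intro ε hε
  have h0 : 0 < ‖t‖ + 1 := by positivity
  filter_upwards [hu _ (div_pos hε h0)] with s h1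
  have e : E (tr s (t • u).1.1) = t • E (tr s u.1.1) := by
    refine Prod.ext (Prod.ext ?_ (smul_zero _).symm) (smul_zero _).symm
    show tr s (t • u.1.1) = t • tr s u.1.1
    ext i
    simp only [tr_apply, lp.coeFn_smul, Pi.smul_apply]
    split_ifs <;> simp
  rw [e, ← smul_sub]
  refine (h1.smul t).mono ?_
  rw [← mul_div_assoc, div_le_iff₀ h0]
  nlinarith

theorem Q_mul (c : A) (z : L1) : Q (c * E z) := by
  intro ε hε
  have h := (tr_tendsto z).const_mul ‖c‖
  rw [mul_zero] at h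
  filter_upwards [h.eventually (gt_mem_nhds hε)] with s hs
  have e : c * E z - E (tr s (c * E z).1.1) = c * E (z - tr s z) := by
    refine Prod.ext (Prod.ext ?_ (sub_zero _)) ?_
    · show P c.1 (z, 0) - tr s (P c.1 (z, 0)) = P c.1 (z - tr s z, 0)
      ext i
      simp only [tr_apply, lp.coeFn_sub, Pi.sub_apply, P_apply, ev_mk]
      split_ifs <;> simp
    · exact sub_zero _
  rw [e]
  exact (Rep.mul _ _).mono (by rw [E_norm]; exact hs.le)

theorem Q_span {x : A} (hx : x ∈ Submodule.span ℂ {z : A | ∃ a b : A, z = a * b}) :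
    Q (x - x.2 • (Ξ * Ξ)) := by
  induction hx using Submodule.span_induction with
  | mem x hx =>
    obtain ⟨a, b, rfl⟩ := hx
    have e : a * b - (a * b).2 • (Ξ * Ξ) = a * E b.1.1 + Ξ * E (b.1.2 • a.1.1) := by
      refine Prod.ext (Prod.ext ?_ ?_) ?_
      · show P a.1 b.1 - (a.1.2 * b.1.2) • P (0, 1) (0, 1) =
          P a.1 (b.1.1, 0) + P (0, 1) (b.1.2 • a.1.1, 0)
        ext i
        simp [ev]; ring
      · show (0 : ℂ) - _ * 0 = 0 + 0
        simp
      · show a.1.2 * b.1.2 - (a.1.2 * b.1.2) * (1 * 1) = a.1.2 * 0 + 1 * 0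
        simp
    rw [e]
    exact (Q_mul _ _).add (Q_mul _ _)
  | zero =>
    have := Q_mul 0 0
    rw [zero_mul] at this
    have e : (0 : A).2 = 0 := rfl
    simpa [e] using this
  | add x y _ _ hx hy =>
    have e : (x + y).2 = x.2 + y.2 := rfl
    rw [e, add_smul, add_sub_add_comm]
    exact hx.add hy
  | smul t x _ hx =>
    have e : (t • x).2 = t * x.2 := rfl
    rw [e, mul_smul, ← smul_sub]
    exact hx.smul t

theorem A_hasS : HasS A := by
  refine ⟨10, by norm_num, fun x hx => ?_⟩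
  rcases eq_or_ne x 0 with rfl | h0
  · exact Rep.zero.mono (by simp)
  obtain ⟨s, hs⟩ := (Q_span hx _ (norm_pos_iff.2 h0)).exists
  have h1 : ‖x.2‖ ≤ ‖x‖ := norm_snd_le (E := L1 × ℂ) x
  have h2 := (Rep.mul Ξ Ξ).smul x.2
  have h3 : ‖Ξ * Ξ‖ ≤ 1 := by simpa [Ξ_norm] using norm_mul_le Ξ Ξ
  set u := x - x.2 • (Ξ * Ξ) with hu
  have h4 : ‖u‖ ≤ 2 * ‖x‖ := by
    have := norm_sub_le x (x.2 • (Ξ * Ξ))
    rw [norm_smul] at this
    nlinarith [norm_nonneg x.2]
  have h5 : ‖u.1.1‖ ≤ ‖u‖ := (norm_fst_le u.1).trans (norm_fst_le (E := L1 × ℂ) u)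
  have h6 := (hs.add (Rep_tr s u.1.1)).add h2
  rw [sub_add_cancel, hu, sub_add_cancel, Ξ_norm] at h6
  exact h6.mono (by linarith)

theorem list_bound (l : List (B × B)) : ∃ (τ : ℂ) (g : ℕ → ℝ) (M : ℝ), Summable g ∧
    (∀ i, 0 ≤ g i) ∧ 0 ≤ M ∧ ‖τ‖ ≤ (l.map fun p => ‖p.1‖ * ‖p.2‖).sum ∧
    ∀ i, ‖4 * ((l.map fun p : B × B => p.1 * p.2).sum).1 i - τ * ξ i ^ 2‖ ≤ g i ^ 2 + M * ξ i * g i := by
  induction l with
  | nil =>
    refine ⟨0, 0, 0, summable_zero, fun _ => le_rfl, le_rfl, by simp, fun i => ?_⟩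
    have : (([] : List (B × B)).map fun p : B × B => p.1 * p.2).sum.1 = 0 := rfl
    rw [this]
    simp
  | cons p l ih =>
    obtain ⟨τ, g, M, hg, hg0, hM, hτ, h⟩ := ih
    obtain ⟨a, b⟩ := p
    refine ⟨a.2 * b.2 + τ, fun i => ‖a.1 i‖ + ‖b.1 i‖ + g i, M + ‖a.2‖ + ‖b.2‖,
      ((L1_hasSum a.1).summable.add (L1_hasSum b.1).summable).add hg,
      fun i => by have := hg0 i; positivity, by positivity, ?_, fun i => ?_⟩
    · simp only [List.map_cons, List.sum_cons]
      refine (norm_add_le _ _).trans (add_le_add ?_ hτ)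
      rw [norm_mul]
      exact mul_le_mul (norm_snd_le (E := L1) a) (norm_snd_le (E := L1) b) (norm_nonneg _)
        (norm_nonneg a)
    · simp only [List.map_cons, List.sum_cons]
      set S := (l.map fun p : B × B => p.1 * p.2).sum
      have e : 4 * (a * b + S).1 i - (a.2 * b.2 + τ) * ξ i ^ 2 =
          a.1 i * b.1 i + a.2 * ξ i * b.1 i + b.2 * ξ i * a.1 i + (4 * S.1 i - τ * ξ i ^ 2) := by
        show 4 * (P a b + S.1) i - _ = _
        simp [ev]; ring
      rw [e]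
      have n1 := norm_add_le (a.1 i * b.1 i + a.2 * ξ i * b.1 i + b.2 * ξ i * a.1 i)
        (4 * S.1 i - τ * ξ i ^ 2)
      have n2 := norm_add₃_le (a := a.1 i * b.1 i) (b := a.2 * ξ i * b.1 i)
        (c := b.2 * ξ i * a.1 i)
      simp only [norm_mul, Complex.norm_real, Real.norm_of_nonneg (ξ_pos i).le] at n2
      have n3 := h i
      have x0 := norm_nonneg (a.1 i)
      have y0 := norm_nonneg (b.1 i)
      have s0 := mul_nonneg (norm_nonneg a.2) (ξ_pos i).le
      have t0 := mul_nonneg (norm_nonneg b.2) (ξ_pos i).le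
      have m0 := mul_nonneg hM (ξ_pos i).le
      have g0 := hg0 i
      nlinarith [mul_nonneg x0 y0, mul_nonneg x0 g0, mul_nonneg y0 g0, mul_nonneg s0 x0,
        mul_nonneg s0 g0, mul_nonneg t0 y0, mul_nonneg t0 g0, mul_nonneg m0 x0, mul_nonneg m0 y0]

theorem B_not_hasS : ¬ HasS B := by
  rintro ⟨C, hC, h⟩
  let v : L1 := P (0, 1) (0, 1)
  have ht := (tr_tendsto v).const_mul C
  rw [mul_zero] at ht
  obtain ⟨s, hs⟩ := (ht.eventually (gt_mem_nhds one_half_pos)).exists
  let e : L1 →ₗ[ℂ] B := LinearMap.inl ℂ L1 ℂ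
  have hmem : e (v - tr s v) ∈ Submodule.span ℂ {z : B | ∃ a b : B, z = a * b} := by
    rw [map_sub, tr, map_sum]
    refine sub_mem (Submodule.subset_span ⟨(0, 1), (0, 1), rfl⟩) (sum_mem fun i _ => ?_)
    rw [single_eq]
    exact Submodule.subset_span ⟨_, _, rfl⟩
  obtain ⟨l, hl1, hl2⟩ := h _ hmem
  have hn : ‖e (v - tr s v)‖ = ‖v - tr s v‖ := by
    show max ‖v - tr s v‖ ‖(0 : ℂ)‖ = _
    simp
  obtain ⟨τ, g, M, hg, hg0, hM, hτ, hb⟩ := list_bound l
  rw [← hl1] at hb
  rw [hn] at hl2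
  have hτ' : 1 / 2 ≤ ‖1 - τ‖ := by
    have := norm_sub_norm_le 1 τ
    rw [norm_one] at this
    linarith
  apply ξ_not_summable
  refine Summable.of_norm_bounded_eventually (hg.mul_left (2 * (1 + M))) ?_
  filter_upwards [s.finite_toSet.compl_mem_cofinite] with i hi
  have hi' : i ∉ s := hi
  have h1 := hb i
  have e1 : 4 * (e (v - tr s v)).1 i - τ * ξ i ^ 2 = (1 - τ) * ξ i ^ 2 := by
    show 4 * (v - tr s v) i - _ = _
    simp [tr_apply, hi', v, ev]; ring
  rw [e1, norm_mul, norm_pow, Complex.norm_real, Real.norm_of_nonneg (ξ_pos i).le] at h1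
  rw [Real.norm_of_nonneg (ξ_pos i).le]
  by_contra hc
  push Not at hc
  have x0 := ξ_pos i
  have g0 := hg0 i
  have h2 : g i ≤ ξ i := by nlinarith [mul_nonneg hM g0]
  have h3 := mul_le_mul_of_nonneg_right hτ' (sq_nonneg (ξ i))
  nlinarith [mul_le_mul_of_nonneg_right h2 g0, mul_lt_mul_of_pos_right hc x0]

noncomputable def χ (i : ℕ) : A →ₙₐ[ℂ] ℂ where
  toFun a := ev a.1 i / 4
  map_smul' c a := by
    show ev (c • a.1) i / 4 = c * (ev a.1 i / 4)
    rw [ev_smul]; ring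
  map_zero' := by
    show ev 0 i / 4 = 0
    simp
  map_add' a b := by
    show ev (a.1 + b.1) i / 4 = _
    rw [ev_add]; ring
  map_mul' a b := by
    show ev (P a.1 b.1, 0) i / 4 = _
    rw [ev_mk, P_apply]; ring

theorem rad_iff (a : A) :
    (a : Unitization ℂ A) ∈ Ring.jacobson (Unitization ℂ A) ↔ a.1 = 0 := by
  rw [← Ideal.jacobson_bot]
  constructor
  · intro h
    rw [Ideal.mem_jacobson_bot] at h
    have h1 : ∀ i, ev a.1 i = 0 := fun i => by
      by_contra hc
      have hc' : χ i a ≠ 0 := div_ne_zero hc (by norm_num)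
      have := (h (algebraMap ℂ _ (-(χ i a)⁻¹))).map (Unitization.lift (χ i))
      rw [map_add, map_mul, map_one, AlgHom.commutes] at this
      simp [hc'] at this
    have h2 : a.1.2 = 0 := by
      by_contra hc
      apply ξ_not_summable
      refine ((L1_hasSum a.1.1).summable.mul_left ‖a.1.2‖⁻¹).congr fun i => ?_
      have : a.1.1 i = -(a.1.2 * ξ i) := eq_neg_of_add_eq_zero_left (h1 i)
      rw [this, norm_neg, norm_mul, Complex.norm_real, Real.norm_of_nonneg (ξ_pos i).le,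
        inv_mul_cancel_left₀ (norm_ne_zero_iff.2 hc)]
    refine Prod.ext ?_ h2
    ext i
    simpa [ev, h2] using h1 i
  · intro h
    rw [Ideal.jacobson_bot]
    refine nilradical_le_jacobson _ ⟨2, ?_⟩
    have : a * a = 0 := by rw [A_mul, h]; exact Prod.ext (Prod.ext (P_zero _) rfl) (zero_mul _)
    rw [pow_two, ← Unitization.inr_mul, this, Unitization.inr_zero]
    exact Submodule.zero_mem _

noncomputable def q : A →ₙₐ[ℂ] B where
  toFun a := a.1
  map_smul' _ _ := rfl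
  map_zero' := rfl
  map_add' _ _ := rfl
  map_mul' _ _ := rfl

/-- A Banach algebra with finite-dimensional radical and property (S) whose quotient by the
radical does not have property (S). -/
theorem result : ∃ (A : Type) (_ : NonUnitalNormedRing A) (_ : NormedSpace ℂ A)
    (_ : IsScalarTower ℂ A A) (_ : SMulCommClass ℂ A A) (_ : CompleteSpace A)
    (B : Type) (_ : NonUnitalNormedRing B) (_ : NormedSpace ℂ B)
    (_ : IsScalarTower ℂ B B) (_ : SMulCommClass ℂ B B) (_ : CompleteSpace B)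
    (R : Submodule ℂ A) (q : A →ₙₐ[ℂ] B),
    (∀ a : A, a ∈ R ↔ (a : Unitization ℂ A) ∈ Ring.jacobson (Unitization ℂ A)) ∧
    FiniteDimensional ℂ R ∧ Function.Surjective q ∧ (∀ a, q a = 0 ↔ a ∈ R) ∧
    (∀ a, ‖q a‖ = Metric.infDist a R) ∧ HasS A ∧ ¬ HasS B := by
  let r : A := (0, 1)
  have hR : ∀ a : A, a ∈ Submodule.span ℂ {r} ↔ a.1 = 0 := fun a => by
    rw [Submodule.mem_span_singleton]
    constructor
    · rintro ⟨c, rfl⟩
      exact smul_zero c
    · intro h
      exact ⟨a.2, Prod.ext ((smul_zero _).trans h.symm) (mul_one _)⟩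
  refine ⟨A, inferInstance, inferInstance, inferInstance, inferInstance, inferInstance,
    B, inferInstance, inferInstance, inferInstance, inferInstance, inferInstance,
    Submodule.span ℂ {r}, q, fun a => (hR a).trans (rad_iff a).symm, inferInstance,
    fun b => ⟨(b, 0), rfl⟩, fun a => (hR a).symm, fun a => ?_, A_hasS, B_not_hasS⟩
  refine le_antisymm ((Metric.le_infDist ⟨0, Submodule.zero_mem _⟩).2 fun y hy => ?_) ?_
  · rw [dist_eq_norm]
    have h1 := norm_fst_le (E := L1 × ℂ) (a - y)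
    have h2 : (a - y).1 = a.1 := by
      show a.1 - y.1 = a.1
      rw [(hR y).1 hy, sub_zero]
    rwa [h2] at h1
  · refine (Metric.infDist_le_dist_of_mem ((hR (0, a.2)).2 rfl)).trans ?_
    rw [dist_eq_norm]
    show max ‖a.1 - 0‖ ‖a.2 - a.2‖ ≤ ‖a.1‖
    simp

end Pool.Agent.Results.MP_a0c03c_an.QuotientS
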